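import Mathlib
import Pool.Agent.MP_c59ecb_co.al.Fin

set_option autoImplicit false

namespace Pool.Agent.Results.MP_c59ecb_co.PlusTwo

/-- The plane is `ℂ`. The closed unit square with vertex `a` and side direction `ω`, `‖ω‖ = 1`, is
the set of the points `a + ω (s + t i)` with `s, t ∈ [0, 1]`. `Covers N L` says that some `N` closed
unit squares cover the closed square `[0, L] ^ 2`. -/
def Covers (N : ℕ) (L : ℝ) : Prop :=
  ∃ a ω : Fin N → ℂ, (∀ k, ‖ω k‖ = 1) ∧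
    ∀ x ∈ Set.Icc (0 : ℝ) L, ∀ y ∈ Set.Icc (0 : ℝ) L, ∃ k, ∃ s ∈ Set.Icc (0 : ℝ) 1,
      ∃ t ∈ Set.Icc (0 : ℝ) 1, (x : ℂ) + y * Complex.I = a k + ω k * (s + t * Complex.I)

/-- The least number of unit squares that cover a square of side `n + ε` for some `ε > 0`. -/
noncomputable def P (n : ℕ) : ℕ := sInf {N : ℕ | ∃ ε : ℝ, 0 < ε ∧ Covers N (n + ε)}

/-- For every `n ≥ 3`, `n ^ 2 + 1` unit squares cover no square of side above `n`. -/
theorem result : ∀ n : ℕ, 3 ≤ n → n ^ 2 + 2 ≤ P n := by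
  intro n hn
  have h1 : ∀ x ∈ Set.Icc (0 : ℝ) (n + 1), ∃ i : Fin (n + 1), x - (i : ℕ) ∈ Set.Icc (0 : ℝ) 1 := by
    rintro x ⟨h0, h1⟩
    rcases le_total (n : ℝ) x with h | h
    · exact ⟨Fin.last n, by simpa using h, by simpa [add_comm] using h1⟩
    · exact ⟨⟨⌊x⌋₊, Nat.lt_succ_of_le (Nat.floor_le_of_le h)⟩, sub_nonneg.2 (Nat.floor_le h0),
        by linarith [Nat.lt_floor_add_one x]⟩
  have h2 : (n + 1) * (n + 1) ∈ {N : ℕ | ∃ ε : ℝ, 0 < ε ∧ Covers N (n + ε)} := by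
    refine ⟨1, one_pos, fun k => ((finProdFinEquiv.symm k).1 : ℕ) +
      ((finProdFinEquiv.symm k).2 : ℕ) * Complex.I, fun _ => 1, by simp, fun x hx y hy => ?_⟩
    obtain ⟨i, hi⟩ := h1 x hx
    obtain ⟨j, hj⟩ := h1 y hy
    refine ⟨finProdFinEquiv (i, j), _, hi, _, hj, ?_⟩
    simp only [Equiv.symm_apply_apply]
    push_cast
    ring
  obtain ⟨ε, hε, a, ω, h3, h4⟩ := Nat.sInf_mem ⟨_, h2⟩
  exact Pool.Agent.MP_c59ecb_co.al.main n _ ε a ω hn hε h3 h4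

end Pool.Agent.Results.MP_c59ecb_co.PlusTwo
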