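import Mathlib
import Pool.Agent.MP_c59ecb_co.sh.All

set_option autoImplicit false

namespace Pool.Agent.Results.MP_c59ecb_co.SharpOrder

/-- The plane is `ℂ`. The closed unit square with vertex `a` and side direction `ω`, `‖ω‖ = 1`, is
the set of the points `a + ω (s + t i)` with `s, t ∈ [0, 1]`. `Covers N L` says that some `N` closed
unit squares cover the closed square `[0, L] ^ 2`. -/
def Covers (N : ℕ) (L : ℝ) : Prop :=
  ∃ a ω : Fin N → ℂ, (∀ k, ‖ω k‖ = 1) ∧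
    ∀ x ∈ Set.Icc (0 : ℝ) L, ∀ y ∈ Set.Icc (0 : ℝ) L, ∃ k, ∃ s ∈ Set.Icc (0 : ℝ) 1,
      ∃ t ∈ Set.Icc (0 : ℝ) 1, (x : ℂ) + y * Complex.I = a k + ω k * (s + t * Complex.I)

/-- The least number of unit squares that cover a square of side `n + ε` for some `ε > 0`. -/
noncomputable def P (n : ℕ) : ℕ := sInf {N : ℕ | ∃ ε : ℝ, 0 < ε ∧ Covers N (n + ε)}

/-- `P n - n ^ 2` is asymptotic to `c * n ^ (3 / 5)` with `c = 10 / 3 * 288 ^ (1 / 5)`. -/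
theorem result : Filter.Tendsto (fun n : ℕ => ((P n : ℝ) - (n : ℝ) ^ 2) / (n : ℝ) ^ (3 / 5 : ℝ))
    Filter.atTop (nhds (10 / 3 * (288 : ℝ) ^ (1 / 5 : ℝ))) := by
  refine Pool.Agent.MP_c59ecb_co.sh.limit Pool.Agent.MP_c59ecb_co.sh.upper_all
    Pool.Agent.MP_c59ecb_co.sh.lower_all P fun n N ε a ω hε hc => ?_
  have h4 : N ∈ {N : ℕ | ∃ ε : ℝ, 0 < ε ∧ Covers N (n + ε)} := ⟨ε, hε, a, ω, hc⟩
  obtain ⟨δ, hδ, b, ζ, h5⟩ := Nat.sInf_mem ⟨N, h4⟩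
  exact ⟨Nat.sInf_le h4, δ, b, ζ, hδ, h5⟩

end Pool.Agent.Results.MP_c59ecb_co.SharpOrder
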